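import Mathlib

/-!
# Separating two cofinality invariants of balleans (MP_fb12c6_gt)

We give a ballean on `ℕ` (all reflexive relations with uniformly bounded finite sections) with
`cof_⋆ = 1` and `cof_* ≥ ℵ₁`.
-/

namespace Pool.Agent.Results.MP_fb12c6_gt.SmallSupLargeCof

open Cardinal Set

/-- A ballean on a set `X`. -/
structure Ballean (X : Type) where
  /-- the family of entourages -/
  ent : Set (Set (X × X))
  /-- every entourage contains the diagonal -/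
  diag : ∀ E ∈ ent, ∀ x : X, (x, x) ∈ E
  /-- for all entourages `E`, `F` some entourage contains `E ∘ F⁻¹` -/
  comp : ∀ E ∈ ent, ∀ F ∈ ent, ∃ D ∈ ent, ∀ x y z : X, (x, y) ∈ E → (z, y) ∈ F → (x, z) ∈ D
  /-- the union of the entourages is `X × X` -/
  cover : ⋃₀ ent = Set.univ

/-- `E[A] = {y : (a,y) ∈ E for some a ∈ A}`. -/
def img {X : Type} (E : Set (X × X)) (A : Set X) : Set X := {y | ∃ a ∈ A, (a, y) ∈ E}

namespace Ballean

variable {X : Type} (B : Ballean X)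

/-- `S ⊆ X` is bounded if it is contained in `E[x]` for some entourage `E` and some point `x`. -/
def Bdd (S : Set X) : Prop := ∃ E ∈ B.ent, ∃ x : X, ∀ y ∈ S, (x, y) ∈ E

/-- `S ⊆ X × X` is bounded in the square of the ballean: it is contained in
`E₁[x] × E₂[y]` for some entourages `E₁`, `E₂` and some point `(x,y)`. -/
def Bdd₂ (S : Set (X × X)) : Prop :=
  ∃ E₁ ∈ B.ent, ∃ E₂ ∈ B.ent, ∃ p : X × X, ∀ q ∈ S, (p.1, q.1) ∈ E₁ ∧ (p.2, q.2) ∈ E₂

/-- `cof_*(𝓔_X)`: the least size of `𝒞 ⊆ 𝓔_X` such that for every entourage `E` there is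
`C ∈ 𝒞` with `E \ C` bounded in `X × X`. -/
noncomputable def cofLow : Cardinal :=
  sInf {c | ∃ 𝒞 : Set (Set (X × X)), 𝒞 ⊆ B.ent ∧ #𝒞 = c ∧
    ∀ E ∈ B.ent, ∃ C ∈ 𝒞, B.Bdd₂ (E \ C)}

/-- `cof_*(𝓔_X[A])`: the least size of `𝒞 ⊆ 𝓔_X` such that for every entourage `E` there is
`C ∈ 𝒞` with `E[A] \ C[A]` bounded. -/
noncomputable def cofAt (A : Set X) : Cardinal :=
  sInf {c | ∃ 𝒞 : Set (Set (X × X)), 𝒞 ⊆ B.ent ∧ #𝒞 = c ∧
    ∀ E ∈ B.ent, ∃ C ∈ 𝒞, B.Bdd (img E A \ img C A)}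

/-- `cof_⋆(𝓔_X)`: the supremum of `cof_*(𝓔_X[A])` over all `A ⊆ X`. -/
noncomputable def cofStar : Cardinal := ⨆ A : Set X, B.cofAt A

end Ballean

/-- All sections of `E` and of its inverse have at most `n` elements. -/
def Small (E : Set (ℕ × ℕ)) (n : ℕ) : Prop :=
  ∀ x, (∃ s : Finset ℕ, s.card ≤ n ∧ ∀ y, (x, y) ∈ E → y ∈ s) ∧
    (∃ s : Finset ℕ, s.card ≤ n ∧ ∀ y, (y, x) ∈ E → y ∈ s)

theorem small_comp {E F : Set (ℕ × ℕ)} {n m : ℕ} (hE : Small E n) (hF : Small F m) :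
    ∃ k, Small {p | ∃ y, (p.1, y) ∈ E ∧ (p.2, y) ∈ F} k := by
  classical
  choose hE1 hE2 using hE
  choose hF1 hF2 using hF
  choose e1 he1 he1' using hE1
  choose e2 he2 he2' using hE2
  choose f1 hf1 hf1' using hF1
  choose f2 hf2 hf2' using hF2
  refine ⟨n * m + m * n, fun x => ⟨⟨(e1 x).biUnion f2, ?_, ?_⟩, ⟨(f1 x).biUnion e2, ?_, ?_⟩⟩⟩
  · calc ((e1 x).biUnion f2).card ≤ (e1 x).card * m :=
          Finset.card_biUnion_le_card_mul _ _ _ (fun y _ => hf2 y)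
      _ ≤ n * m := Nat.mul_le_mul_right _ (he1 x)
      _ ≤ _ := Nat.le_add_right _ _
  · rintro z ⟨y, hxy, hzy⟩
    exact Finset.mem_biUnion.2 ⟨y, he1' x y hxy, hf2' y z hzy⟩
  · calc ((f1 x).biUnion e2).card ≤ (f1 x).card * n :=
          Finset.card_biUnion_le_card_mul _ _ _ (fun y _ => he2 y)
      _ ≤ m * n := Nat.mul_le_mul_right _ (hf1 x)
      _ ≤ _ := Nat.le_add_left _ _
  · rintro z ⟨y, hzy, hxy⟩
    exact Finset.mem_biUnion.2 ⟨y, hf1' x y hxy, he2' y z hzy⟩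

/-- The ballean of all reflexive relations on `ℕ` with uniformly bounded finite sections. -/
def fin : Ballean ℕ where
  ent := {E | (∀ x, (x, x) ∈ E) ∧ ∃ n, Small E n}
  diag := fun E hE x => hE.1 x
  comp := by
    rintro E ⟨hE, n, hn⟩ F ⟨hF, m, hm⟩
    obtain ⟨k, hk⟩ := small_comp hn hm
    exact ⟨{p | ∃ y, (p.1, y) ∈ E ∧ (p.2, y) ∈ F}, ⟨fun x => ⟨x, hE x, hF x⟩, k, hk⟩,
      fun x y z h1 h2 => ⟨y, h1, h2⟩⟩
  cover := by
    apply Set.eq_univ_of_forall
    rintro ⟨a, b⟩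
    refine ⟨{p | p.1 = p.2 ∨ p = (a, b)}, ⟨fun x => Or.inl rfl, 2, fun x => ⟨⟨{x, b}, ?_, ?_⟩,
      ⟨{x, a}, ?_, ?_⟩⟩⟩, Or.inr rfl⟩
    · exact Finset.card_le_two
    · rintro y (h | h)
      · simp only at h; subst h; simp
      · rw [Prod.mk.injEq] at h; simp [h.2]
    · exact Finset.card_le_two
    · rintro y (h | h)
      · simp only at h; subst h; simp
      · rw [Prod.mk.injEq] at h; simp [h.1]

theorem fin_symm {E : Set (ℕ × ℕ)} (hE : E ∈ fin.ent) : Prod.swap ⁻¹' E ∈ fin.ent :=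
  ⟨fun x => hE.1 x, hE.2.choose, fun x => ⟨(hE.2.choose_spec x).2, (hE.2.choose_spec x).1⟩⟩

theorem img_finite {E : Set (ℕ × ℕ)} (hE : E ∈ fin.ent) {A : Set ℕ} (hA : A.Finite) :
    (img E A).Finite := by
  obtain ⟨_, n, hn⟩ := hE
  choose s hs hs' using fun x => (hn x).1
  refine (hA.biUnion (fun x _ => (s x).finite_toSet)).subset ?_
  rintro y ⟨a, ha, hay⟩
  exact Set.mem_biUnion ha (hs' a y hay)

theorem bdd_of_finite {S : Set ℕ} (hS : S.Finite) : fin.Bdd S := by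
  classical
  refine ⟨{p | p.1 = p.2 ∨ (p.1 = 0 ∧ p.2 ∈ hS.toFinset)}, ⟨fun x => Or.inl rfl,
    hS.toFinset.card + 2, fun x => ⟨⟨insert x hS.toFinset, ?_, ?_⟩, ⟨{x, 0}, ?_, ?_⟩⟩⟩, 0, ?_⟩
  · exact (Finset.card_insert_le _ _).trans (by omega)
  · rintro y (h | h)
    · simp only at h; subst h; simp
    · exact Finset.mem_insert_of_mem h.2
  · exact Finset.card_le_two.trans (by omega)
  · rintro y (h | h)
    · simp only at h; subst h; simp
    · simp only at h; rw [h.1]; simp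
  · intro y hy
    exact Or.inr ⟨rfl, hS.mem_toFinset.2 hy⟩

theorem finite_of_bdd₂ {S : Set (ℕ × ℕ)} (hS : fin.Bdd₂ S) : S.Finite := by
  obtain ⟨E₁, h1, E₂, h2, p, hp⟩ := hS
  have f1 := img_finite h1 (Set.finite_singleton p.1)
  have f2 := img_finite h2 (Set.finite_singleton p.2)
  refine (f1.prod f2).subset ?_
  intro q hq
  exact ⟨⟨p.1, rfl, (hp q hq).1⟩, ⟨p.2, rfl, (hp q hq).2⟩⟩

/-- One entourage suffices for every `A`. -/
theorem one_suffices (A : Set ℕ) :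
    ∃ C ∈ fin.ent, ∀ E ∈ fin.ent, fin.Bdd (img E A \ img C A) := by
  classical
  by_cases hA : A.Finite
  · refine ⟨{p | p.1 = p.2}, ⟨fun x => rfl, 1, fun x => ⟨⟨{x}, by simp, ?_⟩,
      ⟨{x}, by simp, ?_⟩⟩⟩, ?_⟩
    · intro y h; simp only [Set.mem_ofPred_eq] at h; subst h; simp
    · intro y h; simp only [Set.mem_ofPred_eq] at h; subst h; simp
    · intro E hE
      exact bdd_of_finite ((img_finite hE hA).subset Set.sdiff_subset)
  · have hA' : A.Infinite := hA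
    have : Infinite A := hA'.to_subtype
    let e : ℕ ≃ A := (Nat.Subtype.orderIsoOfNat A).toEquiv
    refine ⟨{p | p.1 = p.2 ∨ p.1 = (e p.2 : ℕ)}, ⟨fun x => Or.inl rfl, 2, fun x =>
      ⟨⟨if h : x ∈ A then {x, e.symm ⟨x, h⟩} else {x}, ?_, ?_⟩, ⟨{x, (e x : ℕ)}, ?_, ?_⟩⟩⟩, ?_⟩
    · split_ifs
      · exact Finset.card_le_two
      · simp
    · rintro y (h | h)
      · simp only at h; subst h; split_ifs <;> simp
      · simp only at h
        have hx : x ∈ A := h ▸ (e y).2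
        rw [dif_pos hx]
        have : e.symm ⟨x, hx⟩ = y := by
          rw [Equiv.symm_apply_eq]; exact Subtype.ext h
        simp [this]
    · exact Finset.card_le_two
    · rintro y (h | h)
      · simp only at h; subst h; simp
      · simp only at h; rw [h]; simp
    · intro E hE
      refine bdd_of_finite (Set.Finite.subset Set.finite_empty ?_)
      rintro y ⟨_, hy⟩
      exact hy ⟨(e y : ℕ), (e y).2, Or.inr rfl⟩

/-- No countable family of entourages suffices. -/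
theorem countable_fails (𝒞 : ℕ → Set (ℕ × ℕ)) (h𝒞 : ∀ n, 𝒞 n ∈ fin.ent) :
    ∃ E ∈ fin.ent, ∀ n, ¬ fin.Bdd₂ (E \ 𝒞 n) := by
  classical
  -- for each finite set `s` and `n` there are distinct new points `x`, `y` with `(x,y) ∉ 𝒞 n`
  have step : ∀ (n : ℕ) (s : Finset ℕ), ∃ p : ℕ × ℕ, p.1 ∉ s ∧ p.2 ∉ s ∧ p.1 ≠ p.2 ∧
      p ∉ 𝒞 n := by
    intro n s
    obtain ⟨x, hx⟩ := Infinite.exists_notMem_finset s
    have hf : (img (𝒞 n) {x}).Finite := img_finite (h𝒞 n) (Set.finite_singleton x)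
    obtain ⟨y, hy⟩ := Infinite.exists_notMem_finset (s ∪ {x} ∪ hf.toFinset)
    simp only [Finset.mem_union, Finset.mem_singleton, Set.Finite.mem_toFinset, not_or] at hy
    exact ⟨(x, y), hx, hy.1.1, fun h => hy.1.2 h.symm, fun h => hy.2 ⟨x, rfl, h⟩⟩
  choose P hP1 hP2 hP3 hP4 using step
  -- the recursive construction, keeping the finite set of used points
  let g : ℕ → Finset ℕ := fun k => Nat.rec ∅
    (fun k s => s ∪ {(P (Nat.unpair k).1 s).1, (P (Nat.unpair k).1 s).2}) k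
  have g0 : ∀ k, g (k + 1) = g k ∪ {(P (Nat.unpair k).1 (g k)).1, (P (Nat.unpair k).1 (g k)).2} :=
    fun k => rfl
  let q : ℕ → ℕ × ℕ := fun k => P (Nat.unpair k).1 (g k)
  have gmono : Monotone g := monotone_nat_of_le_succ (fun k => by
    rw [g0]; exact Finset.subset_union_left)
  have q1 : ∀ k, (q k).1 ∉ g k := fun k => hP1 _ _
  have q2 : ∀ k, (q k).2 ∉ g k := fun k => hP2 _ _
  have q3 : ∀ k, (q k).1 ∈ g (k + 1) := fun k => by rw [g0]; simp [q]
  have q4 : ∀ k, (q k).2 ∈ g (k + 1) := fun k => by rw [g0]; simp [q]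
  have inj1 : ∀ k l, (q k).1 = (q l).1 → k = l := by
    intro k l h
    rcases lt_trichotomy k l with hkl | hkl | hkl
    · exact absurd (gmono hkl (q3 k)) (h ▸ q1 l)
    · exact hkl
    · exact absurd (gmono hkl (q3 l)) (h.symm ▸ q1 k)
  have inj2 : ∀ k l, (q k).2 = (q l).2 → k = l := by
    intro k l h
    rcases lt_trichotomy k l with hkl | hkl | hkl
    · exact absurd (gmono hkl (q4 k)) (h ▸ q2 l)
    · exact hkl
    · exact absurd (gmono hkl (q4 l)) (h.symm ▸ q2 k)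
  refine ⟨{p | p.1 = p.2 ∨ ∃ k, p = q k}, ⟨fun x => Or.inl rfl, 2, fun x => ⟨?_, ?_⟩⟩, ?_⟩
  · by_cases h : ∃ k, (q k).1 = x
    · obtain ⟨k, hk⟩ := h
      refine ⟨{x, (q k).2}, Finset.card_le_two, ?_⟩
      rintro y (h | ⟨l, h⟩)
      · simp only at h; subst h; simp
      · have : l = k := inj1 l k (by rw [← h, hk])
        subst this
        rw [← h]; simp
    · refine ⟨{x}, by simp, ?_⟩
      rintro y (h' | ⟨l, h'⟩)
      · simp only at h'; subst h'; simp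
      · exact absurd ⟨l, by rw [← h']⟩ h
  · by_cases h : ∃ k, (q k).2 = x
    · obtain ⟨k, hk⟩ := h
      refine ⟨{x, (q k).1}, Finset.card_le_two, ?_⟩
      rintro y (h | ⟨l, h⟩)
      · simp only at h; subst h; simp
      · have : l = k := inj2 l k (by rw [← h, hk])
        subst this
        rw [← h]; simp
    · refine ⟨{x}, by simp, ?_⟩
      rintro y (h' | ⟨l, h'⟩)
      · simp only at h'; subst h'; simp
      · exact absurd ⟨l, by rw [← h']⟩ h
  · intro n hn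
    have hfin := finite_of_bdd₂ hn
    have hinf : (Set.range fun m => q (Nat.pair n m)).Infinite := by
      apply Set.infinite_range_of_injective
      intro m m' h
      have := inj1 _ _ (congrArg Prod.fst h)
      have h2 := congrArg Nat.unpair this
      rw [Nat.unpair_pair, Nat.unpair_pair] at h2
      exact congrArg Prod.snd h2
    refine hinf (hfin.subset ?_)
    rintro _ ⟨m, rfl⟩
    refine ⟨Or.inr ⟨_, rfl⟩, ?_⟩
    have := hP4 (Nat.unpair (Nat.pair n m)).1 (g (Nat.pair n m))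
    simpa [q, Nat.unpair_pair] using this

/-- **Main result**: there is a ballean on `ℕ`, with a family of entourages that is closed under
inversion, such that `cof_⋆ = 1` and `cof_* ≥ ℵ₁`; in particular `cof_⋆ < cof_*`. -/
theorem result : ∃ B : Ballean ℕ, (∀ E ∈ B.ent, Prod.swap ⁻¹' E ∈ B.ent) ∧
    B.cofStar = 1 ∧ ℵ₁ ≤ B.cofLow ∧ B.cofStar < B.cofLow := by
  have h1 : fin.cofStar = 1 := by
    have hA : ∀ A : Set ℕ, fin.cofAt A = 1 := by
      intro A
      obtain ⟨C, hC, hC'⟩ := one_suffices A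
      apply le_antisymm
      · apply csInf_le'
        exact ⟨{C}, by simpa using hC, by simp, fun E hE => ⟨C, rfl, hC' E hE⟩⟩
      · apply le_csInf
        · exact ⟨_, {C}, by simpa using hC, rfl, fun E hE => ⟨C, rfl, hC' E hE⟩⟩
        · rintro c ⟨𝒞, h𝒞, rfl, hc⟩
          obtain ⟨D, hD, _⟩ := hc C hC
          rw [Cardinal.one_le_iff_ne_zero, Cardinal.mk_ne_zero_iff]
          exact ⟨⟨D, hD⟩⟩
    unfold Ballean.cofStar
    simp only [hA]
    exact ciSup_const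
  have h2 : ℵ₁ ≤ fin.cofLow := by
    unfold Ballean.cofLow
    apply le_csInf
    · refine ⟨_, fin.ent, subset_rfl, rfl, fun E hE => ⟨E, hE, ?_⟩⟩
      refine ⟨E, hE, E, hE, (0, 0), ?_⟩
      rintro q ⟨hq, hq'⟩
      exact absurd hq hq'
    · rintro c ⟨𝒞, h𝒞, rfl, hc⟩
      by_contra hlt
      rw [not_le, ← Cardinal.succ_aleph0, Order.lt_succ_iff, Cardinal.le_aleph0_iff_set_countable]
        at hlt
      obtain ⟨E, hE⟩ : ∃ E, E ∈ fin.ent := ⟨_, (one_suffices ∅).choose_spec.1⟩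
      obtain ⟨D, hD, _⟩ := hc E hE
      obtain ⟨f, hf⟩ := hlt.exists_eq_range ⟨D, hD⟩
      obtain ⟨F, hF, hF'⟩ := countable_fails f (fun n => h𝒞 (hf ▸ ⟨n, rfl⟩))
      obtain ⟨C, hC, hC'⟩ := hc F hF
      rw [hf] at hC
      obtain ⟨n, rfl⟩ := hC
      exact hF' n hC'
  refine ⟨fin, fun E hE => fin_symm hE, h1, h2, ?_⟩
  rw [h1]
  exact lt_of_lt_of_le (Cardinal.one_lt_aleph0.trans Cardinal.aleph0_lt_aleph_one) h2

end Pool.Agent.Results.MP_fb12c6_gt.SmallSupLargeCof
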